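import Pool.Agent.Helper935_AdS.PHalfC

namespace Pool.Agent.Results.MP_2fbb77_gt.PleatedPastPoly
open Helper935.Poly

/-- Let `S₀` be a Fuchsian AdS slab with totally geodesic past boundary (a hyperbolic metric without
cone points) and polyhedral future boundary. Any AdS slab `S`, of arbitrary holonomy, with pleated
past boundary of the same hyperbolic metric and polyhedral future boundary of the same metric is
congruent to `S₀`; in particular its past boundary is totally geodesic. -/
theorem result {Γ : Type*} [Group Γ] {A : Γ →* (V3 ≃ₗ[ℝ] V3)} (hA : IsCocompact A)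
    {ι : Type*} {Cp : ι → Set V3} (hCp : IsSubdivision Cp)
    (S₀ S : HalfPolySlab A Cp) (hF : HalfPolyFuchsian S₀)
    (hp : SameCellMetric Cp S.Yp S₀.Yp) :
    ∃ Φ : V4 ≃ₗ[ℝ] V4, HCongruent S₀ S Φ :=
  half_poly_unique hA hCp S₀ S hF hp

end Pool.Agent.Results.MP_2fbb77_gt.PleatedPastPoly
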