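import Pool.Agent.Helper935_AdS.PSetup

namespace Pool.Agent.Results.MP_2fbb77_gt.PolyFuchsianUnique
open Helper935.Poly

/-- Let `S₀` be a Fuchsian AdS slab with polyhedral past and future boundaries (the two induced
metrics may be different). Any AdS slab `S` with polyhedral boundary, of arbitrary holonomy, having
the same induced metrics on the past and on the future boundary, is congruent to `S₀`. -/
theorem result {Γ : Type*} [Group Γ] {A : Γ →* (V3 ≃ₗ[ℝ] V3)} (hA : IsCocompact A)
    {κ ι : Type*} {Cm : κ → Set V3} {Cp : ι → Set V3}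
    (hCm : IsSubdivision Cm) (hCp : IsSubdivision Cp)
    (S₀ S : PolySlab A Cm Cp) (hF : PolyFuchsian S₀)
    (hm : SameCellMetric Cm S.Ym S₀.Ym) (hp : SameCellMetric Cp S.Yp S₀.Yp) :
    ∃ Φ : V4 ≃ₗ[ℝ] V4, PCongruent S₀ S Φ :=
  poly_unique hA hCm hCp S₀ S hF hm hp

end Pool.Agent.Results.MP_2fbb77_gt.PolyFuchsianUnique
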